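import Pool.Agent.Helper37.ETC.Defs

/-! ETC-F4 (procyclic complements). Block for helper37 (MP_600e55_nt). -/

set_option autoImplicit false

namespace Pool.Helper37.ETC

section Galois

variable {p : ℕ} [Fact p.Prime] {G K : Type*} [Group G] [TopologicalSpace G]
  [IsTopologicalGroup G] [CompactSpace G] [T2Space G] [TotallyDisconnectedSpace G] [Field K]
  [MulSemiringAction G K] {ζ : K}

namespace F4

omit [CompactSpace G] [T2Space G] [TotallyDisconnectedSpace G] [IsTopologicalGroup G]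

lemma ch_one {χ : G → ZMod p} (h : IsCh p χ) : χ 1 = 0 := by
  have h1 := h.1 1 1
  rw [mul_one] at h1
  have h2 : χ 1 + 0 = χ 1 + χ 1 := by rw [add_zero]; exact h1
  exact (add_left_cancel h2).symm

lemma ch_add {χ ψ : G → ZMod p} (h : IsCh p χ) (h' : IsCh p ψ) : IsCh p (χ + ψ) := by
  refine ⟨fun σ τ => ?_, h.2.add h'.2⟩
  simp only [Pi.add_apply, h.1, h'.1]
  ring

lemma ch_smul {χ : G → ZMod p} (h : IsCh p χ) (c : ZMod p) : IsCh p (c • χ) := by
  refine ⟨fun σ τ => ?_, ?_⟩
  · simp only [Pi.smul_apply, h.1, smul_add]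
  · exact h.2.comp (fun x => c • x)

lemma ch_zero : IsCh p (0 : G → ZMod p) :=
  ⟨fun _ _ => by simp, IsLocallyConstant.const 0⟩

lemma ch_sub {χ ψ : G → ZMod p} (h : IsCh p χ) (h' : IsCh p ψ) : IsCh p (χ - ψ) := by
  have := ch_add h (ch_smul h' (-1))
  convert this using 1
  ext x
  simp [sub_eq_add_neg]

lemma ch_pow {χ : G → ZMod p} (h : IsCh p χ) (g : G) (k : ℕ) : χ (g ^ k) = k * χ g := by
  induction k with
  | zero => simp [ch_one h]
  | succ k ih => rw [pow_succ, h.1, ih]; push_cast; ring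

lemma ch_inv {χ : G → ZMod p} (h : IsCh p χ) (g : G) : χ g⁻¹ = -χ g := by
  have h1 := h.1 g g⁻¹
  rw [mul_inv_cancel, ch_one h] at h1
  exact (neg_eq_of_add_eq_zero_right h1.symm).symm

/-- characters vanishing on all `H i`. -/
def W0 (p : ℕ) [Fact p.Prime] {G : Type*} [Group G] [TopologicalSpace G] {n : ℕ}
    (H : Fin n → Subgroup G) : Submodule (ZMod p) (G → ZMod p) where
  carrier := {ψ | IsCh p ψ ∧ ∀ i, ∀ x ∈ H i, ψ x = 0}
  zero_mem' := ⟨ch_zero, fun _ _ _ => rfl⟩
  add_mem' := by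
    rintro a b ⟨ha, ha'⟩ ⟨hb, hb'⟩
    refine ⟨ch_add ha hb, fun i x hx => ?_⟩
    simp [ha' i x hx, hb' i x hx]
  smul_mem' := by
    rintro c a ⟨ha, ha'⟩
    refine ⟨ch_smul ha c, fun i x hx => ?_⟩
    simp [ha' i x hx]

/-- evaluation. -/
def ev (p : ℕ) [Fact p.Prime] {G : Type*} [Group G] [TopologicalSpace G] {n : ℕ}
    (H : Fin n → Subgroup G) (g : G) : Module.Dual (ZMod p) (W0 p H) where
  toFun ψ := ψ.1 g
  map_add' _ _ := rfl
  map_smul' _ _ := rfl

lemma ev_surj {n : ℕ} (H : Fin n → Subgroup G) [FiniteDimensional (ZMod p) (W0 p H)]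
    (f : Module.Dual (ZMod p) (W0 p H)) : ∃ g : G, ev p H g = f := by
  let U : Submodule (ZMod p) (Module.Dual (ZMod p) (W0 p H)) :=
    { carrier := Set.range (ev p H)
      zero_mem' := ⟨1, by
        ext ψ
        exact ch_one ψ.2.1⟩
      add_mem' := by
        rintro _ _ ⟨g, rfl⟩ ⟨g', rfl⟩
        refine ⟨g * g', ?_⟩
        ext ψ
        exact ψ.2.1.1 g g'
      smul_mem' := by
        rintro c _ ⟨g, rfl⟩
        refine ⟨g ^ c.val, ?_⟩
        ext ψ
        change ψ.1 (g ^ c.val) = c • ψ.1 g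
        rw [ch_pow ψ.2.1, ZMod.natCast_zmod_val, smul_eq_mul] }
  have hU : U.dualCoannihilator = ⊥ := by
    rw [Submodule.eq_bot_iff]
    intro w hw
    rw [Submodule.mem_dualCoannihilator] at hw
    apply Subtype.ext
    funext g
    exact hw (ev p H g) ⟨g, rfl⟩
  have hU' : U = ⊤ := by
    rw [← Subspace.dualCoannihilator_dualAnnihilator_eq (W := U), hU,
      Submodule.dualAnnihilator_bot]
  have hf : f ∈ U := by rw [hU']; trivial
  exact hf

end F4

open F4

/-- F4 (procyclic complements: from surjective on `H¹` to bijective on `H¹`) -/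
theorem exists_compl (hfin : FinH1 p G) {n : ℕ} (H : Fin n → Subgroup G)
    (h : ∀ χ : (i : Fin n) → (H i → ZMod p), (∀ i, IsCh p (χ i)) →
      ∃ ψ : G → ZMod p, IsCh p ψ ∧ ∀ i (x : H i), ψ x = χ i x) :
    ∃ (m : ℕ) (g : Fin m → G), (∀ j, ∃ ψ : G → ZMod p, IsCh p ψ ∧ ψ (g j) ≠ 0 ∧
        ∀ i, ∀ x ∈ H i, ψ x = 0) ∧
      ∀ H' : Fin (n + m) → Subgroup G, (∀ i, H' (Fin.castAdd m i) = H i) →
        (∀ j, H' (Fin.natAdd n j) = (Subgroup.zpowers (g j)).topologicalClosure) →
        ∀ χ : (i : Fin (n + m)) → (H' i → ZMod p), (∀ i, IsCh p (χ i)) →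
          ∃! ψ : G → ZMod p, IsCh p ψ ∧ ∀ i (x : H' i), ψ x = χ i x := by
  classical
  have hfinW : Finite (W0 p H) := by
    apply Set.Finite.to_subtype
    exact hfin.subset fun ψ hψ => hψ.1
  have : FiniteDimensional (ZMod p) (W0 p H) := Module.Finite.of_finite
  set b := Module.finBasis (ZMod p) (W0 p H) with hb
  choose g hg using fun j => ev_surj H (b.coord j)
  have hcoord : ∀ (w : W0 p H) j, w.1 (g j) = b.repr w j := by
    intro w j
    have := congrArg (fun f => f w) (hg j)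
    simpa [ev] using this
  have hbg : ∀ l j, (b l).1 (g j) = if l = j then 1 else 0 := by
    intro l j
    rw [hcoord, b.repr_self, Finsupp.single_apply]
  refine ⟨Module.finrank (ZMod p) (W0 p H), g, fun j => ⟨(b j).1, (b j).2.1, ?_, (b j).2.2⟩, ?_⟩
  · rw [hbg, if_pos rfl]
    exact one_ne_zero
  intro H' hH' hH'g χ hχ
  have hmem : ∀ i (x : H i), (x : G) ∈ H' (Fin.castAdd _ i) := fun i x => by
    rw [hH' i]; exact x.2
  have hmemg : ∀ j, g j ∈ H' (Fin.natAdd n j) := fun j => by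
    rw [hH'g j]
    exact Subgroup.le_topologicalClosure _ (Subgroup.mem_zpowers _)
  obtain ⟨ψ0, hψ0, hψ0'⟩ := h (fun i x => χ (Fin.castAdd _ i) ⟨x, hmem i x⟩) (by
    intro i
    refine ⟨fun σ τ => (hχ (Fin.castAdd _ i)).1 ⟨σ, hmem i σ⟩ ⟨τ, hmem i τ⟩, ?_⟩
    exact (hχ (Fin.castAdd _ i)).2.comp_continuous
      (f := fun x : H i => (⟨x, hmem i x⟩ : H' (Fin.castAdd _ i)))
      (continuous_subtype_val.subtype_mk _))
  set c : Fin (Module.finrank (ZMod p) (W0 p H)) → ZMod p :=
    fun j => χ (Fin.natAdd n j) ⟨g j, hmemg j⟩ - ψ0 (g j) with hc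
  set w : W0 p H := ∑ l, c l • b l with hw
  have hwg : ∀ j, w.1 (g j) = c j := by
    intro j
    rw [hcoord, hw, b.repr_sum_self]
  refine ⟨ψ0 + w.1, ⟨ch_add hψ0 w.2.1, ?_⟩, ?_⟩
  · intro i
    refine Fin.addCases (motive := fun i => ∀ x : H' i, (ψ0 + w.1) (x : G) = χ i x) ?_ ?_ i
    · intro i x
      have hx : (x : G) ∈ H i := by rw [← hH' i]; exact x.2
      have h1 := hψ0' i ⟨x, hx⟩
      simp only [Pi.add_apply, w.2.2 i x hx, add_zero]
      exact h1
    · intro j x
      have hd : IsLocallyConstant (fun y : H' (Fin.natAdd n j) =>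
          (ψ0 + w.1) (y : G) - χ (Fin.natAdd n j) y) := by
        apply IsLocallyConstant.sub
        · exact (ch_add hψ0 w.2.1).2.comp_continuous continuous_subtype_val
        · exact (hχ (Fin.natAdd n j)).2
      let S : Subgroup (H' (Fin.natAdd n j)) :=
        { carrier := {y | (ψ0 + w.1) (y : G) - χ (Fin.natAdd n j) y = 0}
          one_mem' := by
            have e1 : χ (Fin.natAdd n j) 1 = 0 := ch_one (hχ (Fin.natAdd n j))
            have e2 : (ψ0 + w.1) (1 : G) = 0 := ch_one (ch_add hψ0 w.2.1)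
            change (ψ0 + w.1) ((1 : H' (Fin.natAdd n j)) : G) - χ (Fin.natAdd n j) 1 = 0
            rw [e1, Subgroup.coe_one, e2, sub_zero]
          mul_mem' := by
            intro y z hy hz
            change (ψ0 + w.1) (y : G) - χ (Fin.natAdd n j) y = 0 at hy
            change (ψ0 + w.1) (z : G) - χ (Fin.natAdd n j) z = 0 at hz
            change (ψ0 + w.1) ((y * z : H' (Fin.natAdd n j)) : G) - χ (Fin.natAdd n j) (y * z) = 0
            rw [(hχ (Fin.natAdd n j)).1, Subgroup.coe_mul, (ch_add hψ0 w.2.1).1]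
            linear_combination hy + hz
          inv_mem' := by
            intro y hy
            change (ψ0 + w.1) (y : G) - χ (Fin.natAdd n j) y = 0 at hy
            change (ψ0 + w.1) ((y⁻¹ : H' (Fin.natAdd n j)) : G) - χ (Fin.natAdd n j) y⁻¹ = 0
            rw [ch_inv (hχ (Fin.natAdd n j)), Subgroup.coe_inv, ch_inv (ch_add hψ0 w.2.1)]
            linear_combination -hy }
      have hScl : IsClosed (S : Set (H' (Fin.natAdd n j))) := hd.isClosed_fiber 0
      have hH'cl : IsClosed (H' (Fin.natAdd n j) : Set G) := by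
        rw [hH'g j]
        exact Subgroup.isClosed_topologicalClosure _
      have hmapcl : IsClosed ((S.map (H' (Fin.natAdd n j)).subtype : Subgroup G) : Set G) := by
        rw [Subgroup.coe_map]
        exact hH'cl.isClosedEmbedding_subtypeVal.isClosedMap _ hScl
      have hgS : Subgroup.zpowers (g j) ≤ S.map (H' (Fin.natAdd n j)).subtype := by
        rw [Subgroup.zpowers_le]
        refine ⟨⟨g j, hmemg j⟩, ?_, rfl⟩
        change (ψ0 + w.1) (g j) - χ (Fin.natAdd n j) ⟨g j, hmemg j⟩ = 0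
        rw [Pi.add_apply, hwg, hc]
        ring
      have hxS : (x : G) ∈ S.map (H' (Fin.natAdd n j)).subtype := by
        apply Subgroup.topologicalClosure_minimal _ hgS hmapcl
        rw [← hH'g j]
        exact x.2
      obtain ⟨y, hy, hyx⟩ := hxS
      have hyx' : y = x := Subtype.ext hyx
      subst hyx'
      exact sub_eq_zero.1 hy
  · rintro ψ ⟨hψ, hψ'⟩
    have hd : ψ - ψ0 - w.1 ∈ W0 p H := by
      refine ⟨ch_sub (ch_sub hψ hψ0) w.2.1, fun i x hx => ?_⟩
      have h1 := hψ0' i ⟨x, hx⟩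
      have h2 := hψ' (Fin.castAdd _ i) ⟨x, hmem i ⟨x, hx⟩⟩
      simp only [Pi.sub_apply, w.2.2 i x hx, sub_zero]
      rw [sub_eq_zero]
      exact h2.trans h1.symm
    have hz : (⟨ψ - ψ0 - w.1, hd⟩ : W0 p H) = 0 := by
      apply b.ext_elem
      intro j
      rw [← hcoord]
      have h2 := hψ' (Fin.natAdd n j) ⟨g j, hmemg j⟩
      simp only [Pi.sub_apply, map_zero, Finsupp.coe_zero, Pi.zero_apply]
      rw [hwg, hc]
      simp only at h2 ⊢
      rw [h2]
      ring
    have hz' : ψ - ψ0 - w.1 = 0 := congrArg Subtype.val hz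
    funext x
    have := congrFun hz' x
    simp only [Pi.sub_apply, Pi.zero_apply] at this
    simp only [Pi.add_apply]
    linear_combination this

end Galois

end Pool.Helper37.ETC
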