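import Pool.Agent.Helper37.ETC.Defs

/-! ETC-F6 (free products of free products). Block for helper37 (MP_600e55_nt). -/

set_option autoImplicit false

namespace Pool.Helper37.ETC

section Galois

variable {p : ℕ} [Fact p.Prime] {G K : Type*} [Group G] [TopologicalSpace G]
  [IsTopologicalGroup G] [CompactSpace G] [T2Space G] [TotallyDisconnectedSpace G] [Field K]
  [MulSemiringAction G K] {ζ : K}

/-- F6 (free products of free products) -/
theorem univ_trans {n : ℕ} (H : Fin n → Subgroup G) (hcl : ∀ i, IsClosed (H i : Set G))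
    (hU : Univ p H) (k : Fin n → ℕ) (H' : (i : Fin n) → Fin (k i) → Subgroup (H i))
    (hcl' : ∀ i j, IsClosed (H' i j : Set (H i))) (hU' : ∀ i, Univ p (H' i)) :
    ∃ (N : ℕ) (H'' : Fin N → Subgroup G), (∀ l, IsClosed (H'' l : Set G)) ∧ Univ p H'' ∧
      ∀ l, ∃ i j, H'' l = (H' i j).map (H i).subtype := by
  classical
  let e : (Σ i, Fin (k i)) ≃ Fin (Fintype.card (Σ i, Fin (k i))) := Fintype.equivFin _
  refine ⟨Fintype.card (Σ i, Fin (k i)),
    fun l => (H' (e.symm l).1 (e.symm l).2).map (H (e.symm l).1).subtype, ?_, ?_, fun l => ⟨_, _, rfl⟩⟩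
  · intro l
    rw [Subgroup.coe_map]
    exact (hcl _).isClosedEmbedding_subtypeVal.isClosedMap _ (hcl' _ _)
  intro P _ _ hP φ hφ
  -- the maps on the inner groups
  have hmem : ∀ (i : Fin n) (j : Fin (k i)) (x : H' i j), ((x : H i) : G) ∈
      (H' (e.symm (e ⟨i, j⟩)).1 (e.symm (e ⟨i, j⟩)).2).map (H (e.symm (e ⟨i, j⟩)).1).subtype := by
    intro i j x
    rw [e.symm_apply_apply]
    exact ⟨x.1, x.2, rfl⟩
  let ι : ∀ (i : Fin n) (j : Fin (k i)), H' i j →*
      ((H' (e.symm (e ⟨i, j⟩)).1 (e.symm (e ⟨i, j⟩)).2).map (H (e.symm (e ⟨i, j⟩)).1).subtype :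
        Subgroup G) := fun i j =>
    { toFun := fun x => ⟨((x : H i) : G), hmem i j x⟩
      map_one' := rfl
      map_mul' := fun _ _ => rfl }
  have hιc : ∀ i j, Continuous (ι i j) := fun i j =>
    (continuous_subtype_val.comp continuous_subtype_val).subtype_mk _
  have h1 : ∀ i, ∃! ψ : H i →* P, IsOpen (ψ.ker : Set (H i)) ∧
      ∀ j, ∀ x : H' i j, ψ (x : H i) = (φ (e ⟨i, j⟩)).comp (ι i j) x := by
    intro i
    refine hU' i P hP (fun j => (φ (e ⟨i, j⟩)).comp (ι i j)) ?_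
    intro j
    have : (((φ (e ⟨i, j⟩)).comp (ι i j)).ker : Set (H' i j)) =
        ι i j ⁻¹' ((φ (e ⟨i, j⟩)).ker : Set _) := by
      ext x
      simp [MonoidHom.mem_ker]
    rw [this]
    exact (hφ _).preimage (hιc i j)
  choose θ hθ hθu using h1
  obtain ⟨ψ, ⟨hψo, hψ⟩, hψu⟩ := hU P hP θ (fun i => (hθ i).1)
  refine ⟨ψ, ⟨hψo, ?_⟩, ?_⟩
  · intro l x
    obtain ⟨⟨i, j⟩, rfl⟩ := e.surjective l
    obtain ⟨y, hy, hyx⟩ : ∃ y : H i, y ∈ H' i j ∧ (y : G) = (x : G) := by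
      have hx : (x : G) ∈ (H' (e.symm (e ⟨i, j⟩)).1 (e.symm (e ⟨i, j⟩)).2).map
          (H (e.symm (e ⟨i, j⟩)).1).subtype := x.2
      rw [e.symm_apply_apply] at hx
      obtain ⟨y, hy, hyx⟩ := hx
      exact ⟨y, hy, hyx⟩
    have h2 : ι i j ⟨y, hy⟩ = x := Subtype.ext hyx
    rw [← hyx, hψ i y, (hθ i).2 j ⟨y, hy⟩, MonoidHom.comp_apply, h2]
  · rintro ψ' ⟨hψ'o, hψ'⟩
    apply hψu
    refine ⟨hψ'o, ?_⟩
    intro i x
    have h3 : ψ'.comp (H i).subtype = θ i := by
      apply hθu i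
      refine ⟨?_, ?_⟩
      · have : ((ψ'.comp (H i).subtype).ker : Set (H i)) =
            (Subtype.val : H i → G) ⁻¹' (ψ'.ker : Set G) := by
          ext x
          simp [MonoidHom.mem_ker]
        rw [this]
        exact hψ'o.preimage continuous_subtype_val
      · intro j y
        exact hψ' (e ⟨i, j⟩) (ι i j y)
    rw [← h3]
    rfl

end Galois

end Pool.Helper37.ETC
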